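import Pool.Agent.Lib_helper96.PNV.Defs
import Pool.Agent.Lib_helper96.PNV.L.QA1
import Pool.Agent.Lib_helper96.PNV.L.QA2
import Pool.Agent.Lib_helper96.PNV.L.QA8
import Pool.Agent.Lib_helper96.PNV.L.QF1
import Pool.Agent.Lib_helper18.AQ.M.Defs

/-!
# AQ (MP_892e4c_nt): the common parts of `PNV` and of `AQ.PENK` (helper96)

The rotation `rot b u`, `mM b = 10 - b` is the open edge; frame of `AQ.PENK`:
`(dt (u k) (u (b + 1)), dt (u b) (u k))`, for all `b`.
-/

set_option autoImplicit false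

namespace Pool.Agent.PNV

open Finset Pool.Agent.PENT Pool.Agent.PENK Pool.Agent.PNI

variable {q : Prm} {x : ℝ} {u v w : PolyK 11}

/-- the vertex `u_k` in the frame of `AQ.PENK` -/
def cw (b : Fin 11) (u : PolyK 11) (k : Fin 11) : ℤ × ℤ := (dt (u k) (u (b + 1)), dt (u b) (u k))

theorem cw_of (u : PolyK 11) {b : Fin 11} (hb : b ≠ 10) (k : Fin 11) : cw b u k = cb b u k := by
  rw [cb_of u hb]
  rfl

/-- the factor between the two frames -/
def lam (q : Prm) (b : Fin 11) : ℤ := if b = 10 then q.v1.2 else 1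

theorem cw_ten (h0 : q.v0 = (1, 0)) (hu : IsPt q x u) (k : Fin 11) :
    cw 10 u k = (-(u k).2, q.v1.1 * (u k).2 - q.v1.2 * (u k).1) := by
  unfold cw
  have e : (10 + 1 : Fin 11) = 0 := by decide
  rw [e, hu.f0, hu.f1, h0]
  unfold dt
  ext
  · simp only
    ring
  · simp only

theorem cw_dt (h0 : q.v0 = (1, 0)) (hu : IsPt q x u) (hv : IsPt q x v) (b m m' : Fin 11) :
    dt (cw b u m) (cw b v m') = lam q b * dt (cb b u m) (cb b v m') := by
  by_cases hb : b = 10
  · subst hb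
    rw [cw_ten h0 hu, cw_ten h0 hv, cb_ten_of, cb_ten_of]
    unfold lam dt
    rw [if_pos rfl]
    simp only
    ring
  · rw [cw_of u hb, cw_of v hb]
    unfold lam
    rw [if_neg hb, one_mul]

theorem lam_ne (h0 : q.v0 = (1, 0)) (hu : IsPt q x u) {p : ℕ} (hp : p.Prime) (b : Fin 11)
    {i : Fin 11} (hi : p ∣ dn u i) : ¬ (p : ℤ) ∣ lam q b := by
  unfold lam
  split_ifs
  · intro h
    have h1 := hu.cD i
    rw [hu.f0, hu.f1, h0] at h1
    have e : dt ((1 : ℤ), (0 : ℤ)) q.v1 = q.v1.2 := by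
      unfold dt
      ring
    rw [e] at h1
    exact qa2_cop hp h1 hi (Int.natCast_dvd.1 h)
  · intro h
    have h4 : p ∣ 1 := by exact_mod_cast h
    exact hp.one_lt.ne' (Nat.dvd_one.mp h4)

theorem cw_dvd (h0 : q.v0 = (1, 0)) (hu : IsPt q x u) (hv : IsPt q x v) {p : ℕ} (hp : p.Prime)
    {i : Fin 11} (hi : p ∣ dn u i) (b m m' : Fin 11) :
    (p : ℤ) ∣ dt (cw b u m) (cw b v m') ↔ (p : ℤ) ∣ dt (cb b u m) (cb b v m') := by
  rw [cw_dt h0 hu hv]
  constructor
  · intro h
    exact ((Nat.prime_iff_prime_int.1 hp).dvd_or_dvd h).resolve_left (lam_ne h0 hu hp b hi)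
  · intro h
    exact h.mul_left _

theorem cw_ne (h0 : q.v0 = (1, 0)) (hu : IsPt q x u) {p : ℕ} (hp : p.Prime)
    {i : Fin 11} (hi : p ∣ dn u i) (b k : Fin 11) (hk : k ∈ nb b) :
    ¬ ((p : ℤ) ∣ (cw b u k).1 ∧ (p : ℤ) ∣ (cw b u k).2) := by
  by_cases hb : b = 10
  · subst hb
    rw [cw_ten h0 hu]
    rintro ⟨h1, h2⟩
    simp only [dvd_neg] at h1 h2
    have hl := lam_ne h0 hu hp 10 hi
    unfold lam at hl
    rw [if_pos rfl] at hl
    have h3 : (p : ℤ) ∣ q.v1.2 * (u k).1 := by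
      have := dvd_sub (h1.mul_left q.v1.1) h2
      rwa [sub_sub_cancel] at this
    have h4 := ((Nat.prime_iff_prime_int.1 hp).dvd_or_dvd h3).resolve_left hl
    exact vert_ne hu hp k ⟨h4, h1⟩
  · rw [cw_of u hb]
    exact qa2_prim hu hp b k hk

theorem qf_uniq (hu : IsPt q x u) {p : ℕ} (hp : p.Prime) {i j : Fin 11} (h1 : p ∣ dn u i)
    (h2 : p ∣ dn u j) : i = j := by
  by_contra h
  exact Nat.not_coprime_of_dvd_of_dvd hp.one_lt h1 h2 (hu.co i j h)

theorem rot_dn (b j : Fin 11) (u : PolyK 11) :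
    AQ.PENK.dn (AQ.PENM.mM b) (rot b u) j = dn u (j + b) := by
  unfold AQ.PENK.dn AQ.PENM.mM
  by_cases h : j = 10 - b
  · rw [if_pos h, h, sub_add_cancel, dn10]
  · rw [if_neg h]
    have h1 : j + b ≠ 10 := by
      intro h2
      apply h
      rw [← h2, add_sub_cancel_right]
    rw [dn_of u h1]
    unfold Pool.Agent.PENK.dl rot
    rw [add_right_comm]

theorem rot_cv (b k : Fin 11) (u : PolyK 11) : cv (rot b u) k = cw b u (k + b) := by
  unfold cv cw rot
  rw [zero_add, add_comm 1 b]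

theorem rot_Lv (h0 : q.v0 = (1, 0)) (hu : IsPt q x u) (b i : Fin 11) {p : ℕ} (hp : p.Prime)
    (hpi : p ∣ dn u i) :
    ¬ ((p : ℤ) ∣ (AQ.PENK.Lv (AQ.PENM.mM b) (rot b u) p).1 ∧
      (p : ℤ) ∣ (AQ.PENK.Lv (AQ.PENM.mM b) (rot b u) p).2) ∧
      ∀ m ∈ vx b i, (p : ℤ) ∣ dt (AQ.PENK.Lv (AQ.PENM.mM b) (rot b u) p) (cw b u m) := by
  classical
  have hp1 : ¬ ((p : ℤ) ∣ 1) := by
    intro h
    have h4 : p ∣ 1 := by exact_mod_cast h
    exact hp.one_lt.ne' (Nat.dvd_one.mp h4)
  have hdl : ∀ j, p ∣ dn u j → (p : ℤ) ∣ dt (u j) (u (j + 1)) := by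
    intro j hj
    rw [dn_of u (ten_of_dvd hp hj)] at hj
    exact Int.natCast_dvd.mpr hj
  unfold AQ.PENK.Lv
  simp only [rot_dn, rot_cv, zero_add]
  split_ifs with h1 h2 h3 h4
  · -- p ∣ dn u (1 + b)
    have hi : i = 1 + b := qf_uniq hu hp hpi h1
    refine ⟨fun h => hp1 h.2, ?_⟩
    intro m hm
    have hib : i ≠ b := by
      rw [hi]
      intro h
      have : (1 : Fin 11) = 0 := by
        have h5 : 1 + b = 0 + b := by rw [h, zero_add]
        exact add_right_cancel h5
      exact absurd this (by decide)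
    unfold vx at hm
    rw [if_neg hib] at hm
    rw [Finset.mem_insert, Finset.mem_singleton] at hm
    rcases hm with hm | hm
    · rw [hm, hi, add_comm 1 b]
      unfold cw dt
      simp only
      ring_nf
      exact dvd_zero _
    · rw [hm]
      have h5 := hdl i hpi
      have e : dt ((0 : ℤ), (1 : ℤ)) (cw b u (i + 1)) = dt (u i) (u (i + 1)) := by
        have hb : b + 1 = i := by rw [hi, add_comm]
        unfold cw
        rw [hb]
        unfold dt
        ring
      rw [e]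
      exact h5
  · -- p ∣ dn u (-1 + b)
    have hi : i = -1 + b := qf_uniq hu hp hpi h2
    refine ⟨fun h => hp1 h.1, ?_⟩
    intro m hm
    have hib : i ≠ b := by
      rw [hi]
      intro h
      have : (-1 : Fin 11) = 0 := by
        have h5 : -1 + b = 0 + b := by rw [h, zero_add]
        exact add_right_cancel h5
      exact absurd this (by decide)
    have hib1 : i + 1 = b := by
      rw [hi, add_assoc, add_comm b 1, ← add_assoc]
      have : (-1 : Fin 11) + 1 = 0 := by decide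
      rw [this, zero_add]
    unfold vx at hm
    rw [if_neg hib] at hm
    rw [Finset.mem_insert, Finset.mem_singleton] at hm
    rcases hm with hm | hm
    · rw [hm]
      have h5 := hdl i hpi
      have e : dt ((1 : ℤ), (0 : ℤ)) (cw b u i) = - dt (u i) (u (i + 1)) := by
        unfold cw
        rw [hib1]
        unfold dt
        ring
      rw [e]
      exact (dvd_neg).mpr h5
    · rw [hm, hib1]
      unfold cw dt
      simp only
      ring_nf
      exact dvd_zero _
  · -- p ∣ dn u b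
    have hi : i = b := qf_uniq hu hp hpi h3
    have hnb : 2 + b ∈ nb b := by
      unfold nb
      rw [Finset.mem_filter]
      refine ⟨Finset.mem_univ _, ?_, ?_⟩
      · intro h
        have h5 : 2 + b = 0 + b := by rw [h, zero_add]
        have : (2 : Fin 11) = 0 := add_right_cancel h5
        exact absurd this (by decide)
      · intro h
        have h5 : 2 + b = 1 + b := by rw [h, add_comm]
        have : (2 : Fin 11) = 1 := add_right_cancel h5
        exact absurd this (by decide)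
    refine ⟨cw_ne h0 hu hp hpi b _ hnb, ?_⟩
    intro m hm
    rw [cw_dvd h0 hu hu hp hpi]
    refine on_line b i (2 + b) m u hpi ?_ hm
    rw [hi]
    unfold vx
    rw [if_pos rfl]
    exact Finset.mem_univ _
  · -- the other edges
    have hj := h4.choose_spec
    set j := h4.choose with hjdef
    have hi : i = j + b := qf_uniq hu hp hpi hj.2.2
    have hjr := hj.1
    unfold inr at hjr
    rw [Finset.mem_filter] at hjr
    have hib : i ≠ b := by
      rw [hi]
      intro h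
      have h5 : j + b = 0 + b := by rw [h, zero_add]
      exact hj.2.1 (add_right_cancel h5)
    have hib1 : i ≠ b + 1 := by
      rw [hi]
      intro h
      have h5 : j + b = 1 + b := by rw [h, add_comm]
      exact hjr.2.1 (add_right_cancel h5)
    have hnb : j + b ∈ nb b := by
      rw [← hi]
      unfold nb
      rw [Finset.mem_filter]
      exact ⟨Finset.mem_univ _, hib, hib1⟩
    refine ⟨cw_ne h0 hu hp hpi b _ hnb, ?_⟩
    intro m hm
    rw [cw_dvd h0 hu hu hp hpi]
    refine on_line b i (j + b) m u hpi ?_ hm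
    rw [← hi]
    unfold vx
    rw [if_neg hib]
    exact Finset.mem_insert_self _ _
  · exfalso
    refine h4 ⟨i - b, ?_, ?_, ?_⟩
    · unfold inr
      rw [Finset.mem_filter]
      refine ⟨Finset.mem_univ _, ?_, ?_⟩
      · intro h
        apply h1
        rw [← h, sub_add_cancel]
        exact hpi
      · intro h
        apply h2
        rw [← h, sub_add_cancel]
        exact hpi
    · intro h
      apply h3
      have : i = b := sub_eq_zero.mp h
      rw [← this]
      exact hpi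
    · rw [sub_add_cancel]
      exact hpi

theorem rot_sameL (h0 : q.v0 = (1, 0)) (hu : IsPt q x u) (hv : IsPt q x v) (b i l : Fin 11)
    {p : ℕ} (hp : p.Prime) (hpi : p ∣ dn u i) (hpl : p ∣ dn v l) :
    AQ.PENK.SameL (AQ.PENM.mM b) (rot b u) (rot b v) p ↔ CL b u v i l p := by
  obtain ⟨n1, p1⟩ := rot_Lv h0 hu b i hp hpi
  obtain ⟨n2, p2⟩ := rot_Lv h0 hv b l hp hpl
  unfold AQ.PENK.SameL CL
  constructor
  · intro h
    refine ⟨hpi, hpl, ?_⟩
    intro m hm m' hm'
    have h1 : (p : ℤ) ∣ dt (cw b u m) (AQ.PENK.Lv (AQ.PENM.mM b) (rot b v) p) :=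
      par_trans hp n1 (p1 m hm) h
    rw [← cw_dvd h0 hu hv hp hpi]
    exact par_trans hp n2 (qa2_swap_dvd h1) (p2 m' hm')
  · rintro ⟨_, _, h⟩
    have key : ∀ b i : Fin 11, ∃ m ∈ vx b i, m ∈ nb b := by decide
    obtain ⟨m, hm, hmb⟩ := key b i
    obtain ⟨m', hm', hmb'⟩ := key b l
    have hn := cw_ne h0 hu hp hpi b m hmb
    have hn' := cw_ne h0 hv hp hpl b m' hmb'
    have h1 := (cw_dvd h0 hu hv hp hpi b m m').2 (h m hm m' hm')
    have h2 : (p : ℤ) ∣ dt (AQ.PENK.Lv (AQ.PENM.mM b) (rot b u) p) (cw b v m') :=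
      par_trans hp hn (qa2_swap_dvd (p1 m hm)) h1
    exact par_trans hp hn' (qa2_swap_dvd h2) (qa2_swap_dvd (p2 m' hm'))

/-! ### the common parts -/

theorem qf_bad (b : Fin 11) (u : PolyK 11) :
    AQ.PENK.bad (AQ.PENM.mM b) (rot b u) = ∏ l ∈ ib b, dn u l := by
  unfold AQ.PENK.bad
  refine Finset.prod_bij (fun j _ => j + b) ?_ ?_ ?_ ?_
  · intro j hj
    unfold inr at hj
    unfold ib
    rw [Finset.mem_filter] at hj ⊢
    refine ⟨mem_univ _, ?_, ?_⟩
    · intro h
      apply hj.2.2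
      calc j = j + b - b := by abel
        _ = -1 := by rw [h]; abel
    · intro h
      apply hj.2.1
      calc j = j + b - b := by abel
        _ = 1 := by rw [h]; abel
  · intro j _ j' _ h
    exact add_left_injective b h
  · intro l hl
    unfold ib at hl
    rw [Finset.mem_filter] at hl
    refine ⟨l - b, ?_, by abel⟩
    unfold inr
    rw [Finset.mem_filter]
    refine ⟨mem_univ _, ?_, ?_⟩
    · intro h
      apply hl.2.2
      calc l = (l - b) + b := by abel
        _ = b + 1 := by rw [h]; abel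
    · intro h
      apply hl.2.1
      calc l = (l - b) + b := by abel
        _ = b - 1 := by rw [h]; abel
  · intro j _
    exact rot_dn b j u

/-- `D(u)` -/
theorem rot_DD (b : Fin 11) (u : PolyK 11) : AQ.PENK.DD (AQ.PENM.mM b) (rot b u) = DD u := by
  unfold AQ.PENK.DD DD
  refine Finset.prod_bij (fun j _ => j + b) (fun _ _ => mem_univ _) ?_ ?_ ?_
  · intro j _ j' _ h
    exact add_left_injective b h
  · intro l _
    exact ⟨l - b, mem_univ _, by abel⟩
  · intro j _
    exact rot_dn b j u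

theorem qf_dn_ne (h : IsPt q x u) (l : Fin 11) : dn u l ≠ 0 := (h.sq l).ne_zero

open Classical in
theorem qf_GI (hv : IsPt q x v) (b : Fin 11) (L : Finset (Fin 11)) :
    ∏ l ∈ L, gl b u v l = ∏ p ∈ L.biUnion (fun l => (dn v l).primeFactors.filter
      (fun p => ∃ i, CL b u v i l p)), p := by
  rw [Finset.prod_biUnion]
  · rfl
  · intro i _ l _ hil
    show Disjoint _ _
    rw [Finset.disjoint_left]
    intro p hp1 hp2
    rw [Finset.mem_filter, Nat.mem_primeFactors] at hp1 hp2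
    exact hil (qf_uniq hv hp1.1.1 hp1.1.2.1 hp2.1.2.1)

theorem rot_Gc (h0 : q.v0 = (1, 0)) (hu : IsPt q x u) (hv : IsPt q x v) (b : Fin 11) :
    AQ.PENK.Gc (AQ.PENM.mM b) (rot b u) (rot b v) = GI b u v := by
  classical
  unfold AQ.PENK.Gc GI
  rw [qf_GI hv b (ib b), qf_bad, qf_bad]
  have hne : ∏ l ∈ ib b, dn u l ≠ 0 := Finset.prod_ne_zero_iff.mpr fun l _ => qf_dn_ne hu l
  have hne' : ∏ l ∈ ib b, dn v l ≠ 0 := Finset.prod_ne_zero_iff.mpr fun l _ => qf_dn_ne hv l
  have hset : (Nat.gcd (∏ l ∈ ib b, dn u l) (∏ l ∈ ib b, dn v l)).primeFactors.filter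
      (AQ.PENK.SameL (AQ.PENM.mM b) (rot b u) (rot b v)) = (ib b).biUnion
      (fun l => (dn v l).primeFactors.filter (fun p => ∃ i, CL b u v i l p)) := by
    ext p
    simp only [Finset.mem_filter, Finset.mem_biUnion, Nat.mem_primeFactors]
    constructor
    · rintro ⟨⟨hp, hd, _⟩, hS⟩
      obtain ⟨i, hi, hpi⟩ := (hp.prime.dvd_finsetProd_iff _).mp (hd.trans (Nat.gcd_dvd_left _ _))
      obtain ⟨l, hl, hpl⟩ := (hp.prime.dvd_finsetProd_iff _).mp (hd.trans (Nat.gcd_dvd_right _ _))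
      exact ⟨l, hl, ⟨hp, hpl, qf_dn_ne hv l⟩, i, (rot_sameL h0 hu hv b i l hp hpi hpl).mp hS⟩
    · rintro ⟨l, hl, ⟨hp, hpl, _⟩, i, hC⟩
      have hs := CL_spec hu hv hp b i l hC
      have hi : i ∈ ib b := by
        unfold ib at hl ⊢
        rw [Finset.mem_filter] at hl ⊢
        exact ⟨mem_univ _, fun h => hl.2.1 (hs.1.mp h), fun h => hl.2.2 (hs.2.mp h)⟩
      refine ⟨⟨hp, Nat.dvd_gcd (hC.1.trans (Finset.dvd_prod_of_mem _ hi))
        (hpl.trans (Finset.dvd_prod_of_mem _ hl)), ?_⟩, ?_⟩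
      · exact Nat.gcd_ne_zero_left hne
      · exact (rot_sameL h0 hu hv b i l hp hC.1 hpl).mpr hC
  rw [← hset]

open Classical in
theorem qf_sp (hu : IsPt q x u) (b l : Fin 11)
    (h1 : ∀ p : ℕ, p.Prime → ∀ i, CL b u v i l p → i = l)
    (h2 : ∀ p : ℕ, p.Prime → p ∣ dn u l → p ∣ dn v l → CL b u v l l p) (hv : IsPt q x v) :
    Nat.gcd (dn u l) (dn v l) = gl b u v l := by
  have hsq : Squarefree (Nat.gcd (dn u l) (dn v l)) :=
    (hu.sq l).squarefree_of_dvd (Nat.gcd_dvd_left _ _)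
  rw [← Nat.prod_primeFactors_of_squarefree hsq]
  unfold gl
  refine Finset.prod_congr ?_ fun _ _ => rfl
  ext p
  simp only [Finset.mem_filter, Nat.mem_primeFactors]
  constructor
  · rintro ⟨hp, hd, _⟩
    have ha := hd.trans (Nat.gcd_dvd_left _ _)
    have hb := hd.trans (Nat.gcd_dvd_right _ _)
    exact ⟨⟨hp, hb, qf_dn_ne hv l⟩, l, h2 p hp ha hb⟩
  · rintro ⟨⟨hp, hd, _⟩, i, hC⟩
    obtain rfl := h1 p hp i hC
    exact ⟨hp, Nat.dvd_gcd hC.1 hd, Nat.gcd_ne_zero_left (qf_dn_ne hu i)⟩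

theorem rot_GT (h0 : q.v0 = (1, 0)) (hu : IsPt q x u) (hv : IsPt q x v) (b : Fin 11) :
    AQ.PENK.Gc (AQ.PENM.mM b) (rot b u) (rot b v) *
      Nat.gcd (AQ.PENK.dn (AQ.PENM.mM b) (rot b u) 1) (AQ.PENK.dn (AQ.PENM.mM b) (rot b v) 1) *
      Nat.gcd (AQ.PENK.dn (AQ.PENM.mM b) (rot b u) (-1))
        (AQ.PENK.dn (AQ.PENM.mM b) (rot b v) (-1)) = GT b u v := by
  classical
  rw [rot_Gc h0 hu hv b]
  have e1 : (1 : Fin 11) + b = b + 1 := by abel
  have e2 : (-1 : Fin 11) + b = b - 1 := by abel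
  have hp1 : Nat.gcd (AQ.PENK.dn (AQ.PENM.mM b) (rot b u) 1)
      (AQ.PENK.dn (AQ.PENM.mM b) (rot b v) 1) = gl b u v (b + 1) := by
    rw [rot_dn, rot_dn, e1]
    refine qf_sp hu b (b + 1) ?_ ?_ hv
    · intro p hp i hC
      exact (CL_spec hu hv hp b i (b + 1) hC).2.mpr rfl
    · intro p hp ha hb
      rw [← rot_sameL h0 hu hv b (b + 1) (b + 1) hp ha hb]
      unfold AQ.PENK.SameL AQ.PENK.Lv
      have c1 : p ∣ AQ.PENK.dn (AQ.PENM.mM b) (rot b u) 1 := by rw [rot_dn, e1]; exact ha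
      have c2 : p ∣ AQ.PENK.dn (AQ.PENM.mM b) (rot b v) 1 := by rw [rot_dn, e1]; exact hb
      rw [if_pos c1, if_pos c2]
      simp [dt]
  have hm1 : Nat.gcd (AQ.PENK.dn (AQ.PENM.mM b) (rot b u) (-1))
      (AQ.PENK.dn (AQ.PENM.mM b) (rot b v) (-1)) = gl b u v (b - 1) := by
    rw [rot_dn, rot_dn, e2]
    refine qf_sp hu b (b - 1) ?_ ?_ hv
    · intro p hp i hC
      exact (CL_spec hu hv hp b i (b - 1) hC).1.mpr rfl
    · intro p hp ha hb
      rw [← rot_sameL h0 hu hv b (b - 1) (b - 1) hp ha hb]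
      have hbb : b + 1 ≠ b - 1 := by
        intro h
        have h3 : (1 : Fin 11) = -1 := by
          calc (1 : Fin 11) = (b + 1) - b := by abel
            _ = (b - 1) - b := by rw [h]
            _ = -1 := by abel
        exact absurd h3 (by decide)
      unfold AQ.PENK.SameL AQ.PENK.Lv
      have c1 : ¬ p ∣ AQ.PENK.dn (AQ.PENM.mM b) (rot b u) 1 := by
        rw [rot_dn, e1]; exact fun h => hbb (qf_uniq hu hp h ha)
      have c2 : ¬ p ∣ AQ.PENK.dn (AQ.PENM.mM b) (rot b v) 1 := by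
        rw [rot_dn, e1]; exact fun h => hbb (qf_uniq hv hp h hb)
      have c3 : p ∣ AQ.PENK.dn (AQ.PENM.mM b) (rot b u) (-1) := by rw [rot_dn, e2]; exact ha
      have c4 : p ∣ AQ.PENK.dn (AQ.PENM.mM b) (rot b v) (-1) := by rw [rot_dn, e2]; exact hb
      rw [if_neg c1, if_neg c2, if_pos c3, if_pos c4]
      simp [dt]
  rw [hp1, hm1]
  unfold GI GT
  have hbb : b + 1 ≠ b - 1 := by
    intro h
    have h3 : (1 : Fin 11) = -1 := by
      calc (1 : Fin 11) = (b + 1) - b := by abel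
        _ = (b - 1) - b := by rw [h]
        _ = -1 := by abel
    exact absurd h3 (by decide)
  have hun : (univ : Finset (Fin 11)) = insert (b + 1) (insert (b - 1) (ib b)) := by
    ext l
    simp only [Finset.mem_univ, Finset.mem_insert, true_iff]
    unfold ib
    rw [Finset.mem_filter]
    by_cases h1 : l = b + 1
    · left; exact h1
    · right
      by_cases h2 : l = b - 1
      · left; exact h2
      · right; exact ⟨mem_univ _, h2, h1⟩
  rw [hun, Finset.prod_insert, Finset.prod_insert]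
  · ring
  · unfold ib; simp
  · rw [Finset.mem_insert]
    unfold ib
    simp [hbb]

end Pool.Agent.PNV
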